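import Pool.Agent.H11.NZ.Targets
import Pool.Agent.H48.NS.FP

/-!
CQX: centralizers in a quotient by a normal subgroup of order prime to `ℓ`.
-/

set_option autoImplicit false

namespace Pool.Agent.H87.NZ.CQX

open Pool.Agent.H11.NZ Pool.Agent.H11.NY

theorem pf_cqx : Pool.Agent.H11.NS.T_FP → T_CQX := by
  intro hFP L Q _ _ _ π hπ ℓ hℓ hdiv g hg c hc S hS hsol
  have hmem : ∀ x : Subgroup.centralizer ({g} : Set L),
      (π.comp (Subgroup.centralizer ({g} : Set L)).subtype) x ∈
        Subgroup.centralizer ({π g} : Set Q) := by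
    rintro ⟨x, hx⟩
    rw [Subgroup.mem_centralizer_iff] at hx ⊢
    intro h hh
    rw [Set.mem_singleton_iff] at hh
    subst hh
    have h1 := hx g rfl
    show π g * π x = π x * π g
    rw [← map_mul, h1, map_mul]
  let θ : Subgroup.centralizer ({g} : Set L) →* Subgroup.centralizer ({π g} : Set Q) :=
    (π.comp (Subgroup.centralizer ({g} : Set L)).subtype).codRestrict _ hmem
  have hθ : Function.Surjective θ := by
    rintro ⟨y', hy'⟩
    obtain ⟨y, rfl⟩ := hπ y'
    have h1 : π g * π y = π y * π g := (Subgroup.mem_centralizer_iff.1 hy') (π g) rfl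
    have h2 : g * y * g⁻¹ * y⁻¹ ∈ π.ker := by
      rw [MonoidHom.mem_ker, map_mul, map_mul, map_mul, h1, map_inv, map_inv]
      group
    obtain ⟨k, hk, hk2⟩ := hFP L π.ker (MonoidHom.normal_ker π) ℓ hℓ hdiv g
      ⟨1, by rw [pow_one]; exact hg⟩ y h2
    refine ⟨⟨y * k, ?_⟩, ?_⟩
    · rw [Subgroup.mem_centralizer_iff]
      intro h hh
      rw [Set.mem_singleton_iff] at hh
      subst hh
      exact hk2
    · apply Subtype.ext
      show π (y * k) = π y
      rw [map_mul, (MonoidHom.mem_ker).1 hk, mul_one]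
  have := hsol
  have h1 : Group.IsSolvable (S.map θ) :=
    Group.isSolvable_of_surjective (θ.subgroupMap_surjective S)
  have h2 := hc (S.map θ) (hS.map θ hθ) h1
  have h3 : (S.map θ).index ∣ S.index := Subgroup.index_map_dvd S hθ
  have h4 : S.index ≠ 0 := Subgroup.index_ne_zero_of_finite
  exact h2.trans (Nat.le_of_dvd (Nat.pos_of_ne_zero h4) h3)

end Pool.Agent.H87.NZ.CQX
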