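import Pool.Agent.H11.NZ.Targets
import Pool.Agent.H51.NY.I3a

/-!
JX: from chief factors to the group, arbitrary kernels.
-/

set_option autoImplicit false

open Equiv (Perm)

namespace Pool.Agent.H87.NZ.JX

open Pool.Agent.H11.NZ Pool.Agent.H11.NY
open scoped commutatorElement

section

variable {H Ω : Type} [Group H] [Fintype Ω] [DecidableEq Ω]

/-- the generating commutators -/
def Gen (ψ : H →* alternatingGroup Ω) (X : Subgroup H) (c : ℕ) : Set H :=
  {x | ∃ Δ Δ' : Finset Ω, Disjoint Δ Δ' ∧ c ≤ Δ.card ∧ c ≤ Δ'.card ∧ ∃ D D' : Subgroup H,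
    DOn ψ X Δ D ∧ DOn ψ X Δ' D' ∧ ∃ d ∈ D, ∃ d' ∈ D', x = d * d' * d⁻¹ * d'⁻¹}

theorem gen_conj (hDC : T_DC) (ψ : H →* alternatingGroup Ω) (X : Subgroup H) (hX : X.Normal)
    (c : ℕ) (y x : H) (hx : x ∈ Gen ψ X c) : y * x * y⁻¹ ∈ Gen ψ X c := by
  obtain ⟨Δ, Δ', hdis, hc, hc', D, D', hD, hD', d, hd, d', hd', rfl⟩ := hx
  have hinj : Function.Injective (fun ω : Ω => (ψ y : Perm Ω) ω) := (ψ y : Perm Ω).injective
  refine ⟨Δ.image fun ω => (ψ y : Perm Ω) ω, Δ'.image fun ω => (ψ y : Perm Ω) ω, ?_, ?_, ?_,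
    D.map (MulAut.conj y).toMonoidHom, D'.map (MulAut.conj y).toMonoidHom,
    hDC H Ω ψ X hX Δ D hD y, hDC H Ω ψ X hX Δ' D' hD' y,
    y * d * y⁻¹, ⟨d, hd, rfl⟩, y * d' * y⁻¹, ⟨d', hd', rfl⟩, ?_⟩
  · exact (Finset.disjoint_image hinj).2 hdis
  · rw [Finset.card_image_of_injective _ hinj]; exact hc
  · rw [Finset.card_image_of_injective _ hinj]; exact hc'
  · group

theorem closure_normal (hDC : T_DC) (ψ : H →* alternatingGroup Ω) (X : Subgroup H)
    (hX : X.Normal) (c : ℕ) : (Subgroup.closure (Gen ψ X c)).Normal := by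
  constructor
  intro n hn g
  induction hn using Subgroup.closure_induction with
  | mem x hx => exact Subgroup.subset_closure (gen_conj hDC ψ X hX c g x hx)
  | one => simp
  | mul x y _ _ h1 h2 =>
    have := Subgroup.mul_mem _ h1 h2
    have h3 : g * (x * y) * g⁻¹ = (g * x * g⁻¹) * (g * y * g⁻¹) := by group
    rw [h3]; exact this
  | inv x _ h1 =>
    have := Subgroup.inv_mem _ h1
    have h3 : g * x⁻¹ * g⁻¹ = (g * x * g⁻¹)⁻¹ := by group
    rw [h3]; exact this

theorem closure_le_ker (ψ : H →* alternatingGroup Ω) (X : Subgroup H) (c : ℕ) :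
    Subgroup.closure (Gen ψ X c) ≤ ψ.ker ⊓ X := by
  rw [Subgroup.closure_le]
  rintro _ ⟨Δ, Δ', hdis, _, _, D, D', hD, hD', d, hd, d', hd', rfl⟩
  refine ⟨?_, ?_⟩
  · show ψ (d * d' * d⁻¹ * d'⁻¹) = 1
    have h1 : Equiv.Perm.Disjoint (ψ d : Perm Ω) (ψ d' : Perm Ω) := by
      intro ω
      by_cases hω : ω ∈ Δ
      · right
        exact hD'.1.2.1 d' hd' ω (fun h => (Finset.disjoint_left.1 hdis) hω h)
      · left
        exact hD.1.2.1 d hd ω hω
    have h2 : ψ d * ψ d' = ψ d' * ψ d := Subtype.ext h1.commute.eq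
    rw [map_mul, map_mul, map_mul, h2, map_inv, map_inv]
    group
  · have h1 : d ∈ X := hD.1.1 hd
    have h2 : d' ∈ X := hD'.1.1 hd'
    exact X.mul_mem (X.mul_mem (X.mul_mem h1 h2) (X.inv_mem h1)) (X.inv_mem h2)

end

theorem comm_ne {G : Type} [Group G] (K : Subgroup G) [Group.IsSolvable K] (hK : K ≠ ⊥) :
    ⁅K, K⁆ ≠ K := by
  intro h
  have : Nontrivial K := (Subgroup.nontrivial_iff_ne_bot K).2 hK
  have h1 : ⁅(⊤ : Subgroup K), ⊤⁆ < ⊤ :=
    Group.IsSolvable.commutator_lt_of_ne_bot (G := K) (H := ⊤) top_ne_bot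
  apply h1.ne
  apply Subgroup.map_injective K.subtype_injective
  rw [Subgroup.map_commutator, ← MonoidHom.range_eq_map, Subgroup.range_subtype, h]

/-- the last step -/
theorem step {H Ω : Type} [Group H] [Finite H] [Fintype Ω] [DecidableEq Ω]
    (ψ : H →* alternatingGroup Ω) (X : Subgroup H) (c : ℕ) (hc5 : 5 ≤ c) (J : Subgroup H)
    (hJ : J.Normal)
    (hsol : Group.IsSolvable J) (hnil : Group.IsNilpotent J) (hker : J ≤ ψ.ker ⊓ X)
    (hI2 : T_I2) (hDP : T_DP)
    (hgen : ∀ x ∈ Gen ψ X c, x ∈ J)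
    (hloc : ∀ ℓ : ℕ, ℓ.Prime → ∀ A B : Subgroup H, A.Normal → B.Normal → B < A →
      A ≤ ψ.ker ⊓ X →
      IsPGroup ℓ A → (∀ M : Subgroup H, M.Normal → B ≤ M → M ≤ A → M = B ∨ M = A) →
      LocSecX ψ X c A B)
    (B1 : Subgroup H) (hB1 : B1.Normal) (hlt : B1 < J)
    (hmax : ∀ M : Subgroup H, M.Normal → B1 ≤ M → M ≤ J → M = B1 ∨ M = J) :
    ∀ x ∈ Gen ψ X c, x ∈ B1 := by
  -- `⁅J, J⁆ ≤ B1`
  have hcomm : ⁅J, J⁆ ≤ B1 := by
    have hle : ⁅J, J⁆ ≤ J := Subgroup.commutator_le_right J J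
    rcases hmax (⁅J, J⁆ ⊔ B1) inferInstance le_sup_right (sup_le hle hlt.le) with h | h
    · rw [← h]; exact le_sup_left
    · exfalso
      let K : Subgroup (H ⧸ B1) := J.map (QuotientGroup.mk' B1)
      have : Group.IsSolvable K :=
        Group.isSolvable_of_surjective ((QuotientGroup.mk' B1).subgroupMap_surjective J)
      have hK : K ≠ ⊥ := by
        intro hK
        have h1 : J ≤ B1 := by
          intro x hx
          have h2 : (QuotientGroup.mk' B1) x ∈ K := ⟨x, hx, rfl⟩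
          rw [hK, Subgroup.mem_bot] at h2
          exact (QuotientGroup.eq_one_iff x).1 h2
        exact absurd h1 (not_le_of_gt hlt)
      apply comm_ne K hK
      show ⁅J.map (QuotientGroup.mk' B1), J.map (QuotientGroup.mk' B1)⁆ =
        J.map (QuotientGroup.mk' B1)
      rw [← Subgroup.map_commutator]
      have h1 : B1.map (QuotientGroup.mk' B1) = ⊥ := by
        rw [Subgroup.map_eq_bot_iff, QuotientGroup.ker_mk']
      conv_rhs => rw [← h]
      rw [Subgroup.map_sup, h1, sup_bot_eq]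
  -- a prime
  have hidx : (B1.subgroupOf J).index ≠ 1 := by
    intro h
    rw [Subgroup.index_eq_one] at h
    exact absurd (Subgroup.subgroupOf_eq_top.1 h) (not_le_of_gt hlt)
  obtain ⟨s, hs, hsd⟩ := Nat.exists_prime_and_dvd hidx
  have : Fact s.Prime := ⟨hs⟩
  let P : Sylow s J := default
  have hPn : (P : Subgroup J).Normal := inferInstance
  have hPc : (P : Subgroup J).Characteristic := P.characteristic_of_normal hPn
  let A : Subgroup H := (P : Subgroup J).map J.subtype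
  have hAn : A.Normal := ConjAct.normal_of_characteristic_of_normal
  have hAJ : A ≤ J := by
    rintro _ ⟨x, _, rfl⟩
    exact x.2
  have hAp : IsPGroup s A := P.isPGroup'.map _
  have hAB : ¬ A ≤ B1 := by
    intro h
    have h1 : (P : Subgroup J) ≤ B1.subgroupOf J := by
      intro x hx
      rw [Subgroup.mem_subgroupOf]
      exact h ⟨x, hx, rfl⟩
    have h2 := Subgroup.index_dvd_of_le h1
    exact P.not_dvd_index (hsd.trans h2)
  -- `J = A B1`
  have hJAB : A ⊔ B1 = J := by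
    rcases hmax (A ⊔ B1) inferInstance le_sup_right (sup_le hAJ hlt.le) with h | h
    · exact absurd (le_sup_left.trans h.le) hAB
    · exact h
  have hls : LocSecX ψ X c A (A ⊓ B1) := by
    apply hloc s hs A (A ⊓ B1) hAn inferInstance _ (hAJ.trans hker) hAp
    · intro M hM hBM hMA
      rcases hmax (M ⊔ B1) inferInstance le_sup_right (sup_le (hMA.trans hAJ) hlt.le)
        with h | h
      · left
        exact le_antisymm (le_inf hMA (le_sup_left.trans h.le)) hBM
      · right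
        apply le_antisymm hMA
        intro x hx
        have h1 : x ∈ M ⊔ B1 := by rw [h]; exact hAJ hx
        rw [Subgroup.mem_sup_of_normal_right] at h1
        obtain ⟨m, hm, b, hb, hmb⟩ := h1
        have h2 : b ∈ A := by
          have : b = m⁻¹ * x := by rw [← hmb]; group
          rw [this]
          exact A.mul_mem (A.inv_mem (hMA hm)) hx
        rw [← hmb]
        exact M.mul_mem hm (hBM ⟨h2, hb⟩)
    · refine lt_of_le_of_ne inf_le_left ?_
      intro h
      exact hAB (h ▸ inf_le_right)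
  -- the quotient
  let π : H →* H ⧸ B1 := QuotientGroup.mk' B1
  have hπ : ∀ x : H, π x = 1 ↔ x ∈ B1 := fun x => QuotientGroup.eq_one_iff x
  rintro _ ⟨Δ, Δ', hdis, hc, hc', D, D', hD, hD', d, hd, d', hd', rfl⟩
  have hDp : ⁅D, D⁆ = D := (hDP H Ω ψ X Δ D (hc5.trans hc) hD).1
  have hDp' : ⁅D', D'⁆ = D' := (hDP H Ω ψ X Δ' D' (hc5.trans hc') hD').1
  have key := hI2 (H ⧸ B1) (J.map π) (D.map π) (D'.map π)
    (hJ.map π (QuotientGroup.mk'_surjective B1)) (by
      rintro _ ⟨x, hx, rfl⟩ _ ⟨y, hy, rfl⟩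
      have h1 : x * y * x⁻¹ * y⁻¹ ∈ ⁅J, J⁆ := Subgroup.commutator_mem_commutator hx hy
      have h2 := (hπ _).2 (hcomm h1)
      rw [map_mul, map_mul, map_mul, map_inv, map_inv] at h2
      have h3 := mul_inv_eq_one.1 h2
      exact mul_inv_eq_iff_eq_mul.1 h3) (by
      rw [← Subgroup.map_commutator, hDp]) (by
      rw [← Subgroup.map_commutator, hDp']) (by
      rintro _ ⟨x, hx, rfl⟩ _ ⟨y, hy, rfl⟩
      refine ⟨x * y * x⁻¹ * y⁻¹, ?_, ?_⟩
      · apply hgen
        exact ⟨Δ, Δ', hdis, hc, hc', D, D', hD, hD', x, hx, y, hy, rfl⟩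
      · rw [map_mul, map_mul, map_mul, map_inv, map_inv]) (by
      rintro _ ⟨x, hx, rfl⟩ _ ⟨y, hy, rfl⟩ _ ⟨v, hv, rfl⟩
      have h1 : v ∈ A ⊔ B1 := by rw [hJAB]; exact hv
      rw [Subgroup.mem_sup_of_normal_right] at h1
      obtain ⟨m, hm, b, hb, hmb⟩ := h1
      have h2 : π v = π m := by rw [← hmb, map_mul, (hπ b).2 hb, mul_one]
      have h3 := hls Δ Δ' hdis hc hc' D D' hD hD' x hx y hy m hm
      have h4 := (hπ _).2 h3.2
      rw [map_mul, map_inv] at h4
      have h5 := mul_inv_eq_one.1 h4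
      rw [map_mul, map_mul, map_mul, map_mul, map_mul, map_inv, map_inv, map_inv] at h5
      rw [h2]
      exact h5)
  have h1 := key (π d) ⟨d, hd, rfl⟩ (π d') ⟨d', hd', rfl⟩
  rw [← hπ, map_mul, map_mul, map_mul, h1, map_inv, map_inv]
  group

theorem pf_jx : T_DC → T_DP → T_I2 → T_JN → T_JX := by
  intro hDC hDP hI2 hJN
  intro H Ω _ _ _ _ ψ X hX c hc5 hloc
  obtain ⟨J, hJdef⟩ : ∃ J : Subgroup H, J = Subgroup.closure (Gen ψ X c) := ⟨_, rfl⟩
  have hJ : J.Normal := by rw [hJdef]; exact closure_normal hDC ψ X hX.1 c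
  have hker : J ≤ ψ.ker ⊓ X := by rw [hJdef]; exact closure_le_ker ψ X c
  have hgen : ∀ x ∈ Gen ψ X c, x ∈ J := by
    intro x hx; rw [hJdef]; exact Subgroup.subset_closure hx
  have hchief : ∀ ℓ : ℕ, ℓ.Prime → ∀ A B : Subgroup H, A.Normal → B.Normal → B < A → A ≤ J →
      IsPGroup ℓ A → (∀ M : Subgroup H, M.Normal → B ≤ M → M ≤ A → M = B ∨ M = A) →
      ∀ y ∈ J, ∀ x ∈ A, y * x * y⁻¹ * x⁻¹ ∈ B := by
    intro ℓ hℓ A B hA hB hBA hAJ hAp hch
    have hls := hloc ℓ hℓ A B hA hB hBA (hAJ.trans hker) hAp hch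
    intro y hy
    rw [hJdef] at hy
    induction hy using Subgroup.closure_induction with
    | mem g hg =>
      obtain ⟨Δ, Δ', hdis, hc, hc', D, D', hD, hD', d, hd, d', hd', rfl⟩ := hg
      intro x hx
      have h1 := Pool.Agent.H51.NYI3a.rot A B D D' (hls Δ Δ' hdis hc hc' D D' hD hD')
      have h2 := Pool.Agent.H51.NYI3a.rot A B D' D (hls Δ' Δ hdis.symm hc' hc D' D hD' hD)
      rw [Subgroup.commutator_comm (D.map _)] at h2
      have h3 := Subgroup.commutator_commutator_eq_bot_of_rotate h1 h2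
      rw [← QuotientGroup.eq_one_iff]
      have h4 : ⁅⁅QuotientGroup.mk' B d, QuotientGroup.mk' B d'⁆, QuotientGroup.mk' B x⁆ ∈
          ⁅⁅D.map (QuotientGroup.mk' B), D'.map (QuotientGroup.mk' B)⁆,
            A.map (QuotientGroup.mk' B)⁆ :=
        Subgroup.commutator_mem_commutator
          (Subgroup.commutator_mem_commutator (Subgroup.mem_map_of_mem _ hd)
            (Subgroup.mem_map_of_mem _ hd')) (Subgroup.mem_map_of_mem _ hx)
      rw [h3, Subgroup.mem_bot] at h4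
      rw [← h4]
      simp [commutatorElement_def]
    | one => intro x _; simp
    | mul g k _ _ h1 h2 =>
      intro x hx
      have h4 := hB.conj_mem _ (h2 x hx) g
      have h5 := B.mul_mem h4 (h1 x hx)
      have h6 : g * k * x * (g * k)⁻¹ * x⁻¹ =
          g * (k * x * k⁻¹ * x⁻¹) * g⁻¹ * (g * x * g⁻¹ * x⁻¹) := by group
      rw [h6]; exact h5
    | inv g _ h1 =>
      intro x hx
      have h4 := B.inv_mem (hB.conj_mem _ (h1 x hx) g⁻¹)
      have h6 : g⁻¹ * x * g⁻¹⁻¹ * x⁻¹ = (g⁻¹ * (g * x * g⁻¹ * x⁻¹) * g⁻¹⁻¹)⁻¹ := by group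
      rw [h6]; exact h4
  rcases hJN H J hJ hchief with hnil | ⟨J₁, B₁, h1, h2, h3, h4, h5, h6, h7⟩
  · left
    have := hnil
    have hJs : Group.IsSolvable J := inferInstance
    have hbot : J = ⊥ := by
      by_contra hne
      obtain ⟨B1, hB1⟩ := (Set.toFinite {N : Subgroup H | N.Normal ∧ N < J}).exists_maximal
        ⟨⊥, inferInstance, bot_lt_iff_ne_bot.2 hne⟩
      have hB1n : B1.Normal := hB1.1.1
      have hmax : ∀ M : Subgroup H, M.Normal → B1 ≤ M → M ≤ J → M = B1 ∨ M = J := by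
        intro M hM hBM hMJ
        rcases eq_or_lt_of_le hMJ with h | h
        · right; exact h
        · left
          exact le_antisymm (hB1.2 ⟨hM, h⟩ hBM) hBM
      have h1 := step ψ X c hc5 J hJ hJs hnil hker hI2 hDP hgen hloc B1 hB1n hB1.1.2 hmax
      have h2 : J ≤ B1 := by
        rw [hJdef, Subgroup.closure_le]
        exact h1
      exact absurd h2 (not_le_of_gt hB1.1.2)
    intro Δ Δ' hdis hc hc' D D' hD hD' d hd d' hd'
    have h1 := hgen (d * d' * d⁻¹ * d'⁻¹)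
      ⟨Δ, Δ', hdis, hc, hc', D, D', hD, hD', d, hd, d', hd', rfl⟩
    rw [hbot] at h1
    exact h1
  · right
    exact ⟨J₁, B₁, h1, h2, h3, h4.trans hker, h5, h6, h7⟩

end Pool.Agent.H87.NZ.JX
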