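import Pool.Agent.H11.NZ.Targets
import Pool.Agent.H12.NY.A1

/-!
LOC: the three local cases together.
-/

set_option autoImplicit false

open Equiv (Perm)

namespace Pool.Agent.H87.NZ.LOC

open Pool.Agent.H11.NZ Pool.Agent.H11.NY

variable {L Ω K V : Type} [Group L] [Fintype Ω] [DecidableEq Ω] [Field K] [AddCommGroup V]
  [Module K V]

theorem hpair_mono (ψ : L →* alternatingGroup Ω) {e B B' q p : ℕ} {a h : L} (hB : B' ≤ B)
    (H : HPair ψ e B q p a h) : HPair ψ e B' q p a h := by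
  obtain ⟨h1, h2, h3, h4, h5, h6, h7, h8, h9, h10, h11⟩ := H
  exact ⟨h1, h2, h3, h4, h5, h6, h7, h8, h9, h10, fun i j hij => hB.trans (h11 i j hij)⟩

theorem lp_mono (ψ : L →* alternatingGroup Ω) (ρ : L →* Module.End K V) {e B B' q : ℕ} {a : L}
    (hB : B' ≤ B) (H : LP ψ ρ e B q a) : LP ψ ρ e B' q a := by
  obtain ⟨h1, h2, h3, h4, h5, h6, h7, h8⟩ := H
  refine ⟨h1, h2, h3, h4, h5, fun j hj => hB.trans (h6 j hj), h7, ?_⟩
  rcases h8 with h8 | ⟨p, h, h9, h10, h11⟩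
  · exact Or.inl h8
  · exact Or.inr ⟨p, h, hpair_mono ψ hB h9, h10, h11⟩

theorem scal_of_comm [IsAlgClosed K] [Module.Finite K V] (ρ : L →* Module.End K V)
    (hv : ∃ v : V, v ≠ 0) (M : Subgroup L) (hF : Faith ρ M)
    (hc : ∀ x ∈ M, ∀ y ∈ M, ρ x * ρ y = ρ y * ρ x) : Scal ρ M := by
  obtain ⟨χ, hχ⟩ := Pool.Agent.H12.NY.A1.exists_joint ρ M hv hc
  intro x hx
  refine ⟨χ ⟨x, hx⟩, ?_⟩
  have h0 := hF (ρ x - χ ⟨x, hx⟩ • ρ 1)
    (Submodule.sub_mem _ (Submodule.subset_span ⟨x, hx, rfl⟩)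
      (Submodule.smul_mem _ _ (Submodule.subset_span ⟨1, M.one_mem, rfl⟩)))
    (Pool.Agent.H12.NY.A1.WS ρ M χ) hχ
    (by
      intro y hy u hu
      have h1 : ρ y u = χ ⟨y, hy⟩ • u := hu ⟨y, hy⟩
      rw [h1]
      exact Submodule.smul_mem _ _ hu)
    (by
      intro u hu
      have h1 : ρ x u = χ ⟨x, hx⟩ • u := hu ⟨x, hx⟩
      rw [LinearMap.sub_apply, LinearMap.smul_apply, h1, map_one, Module.End.one_apply, sub_self])
  intro v
  have h2 := congrArg (fun f : Module.End K V => f v) h0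
  simp only [LinearMap.sub_apply, LinearMap.smul_apply, map_one, Module.End.one_apply,
    LinearMap.zero_apply] at h2
  exact sub_eq_zero.1 h2

theorem pf_loc : T_PCX → T_PC0 → T_PBX → T_PDX → T_LOC := by
  intro hPCX hPC0 hPBX hPDX e
  obtain ⟨B₁, h₁⟩ := hPCX e
  obtain ⟨B₂, h₂⟩ := hPC0 e
  obtain ⟨B₃, h₃⟩ := hPBX e
  obtain ⟨B₄, h₄⟩ := hPDX e
  refine ⟨max (max B₁ B₂) (max B₃ B₄), ?_⟩
  have e1 : B₁ ≤ max (max B₁ B₂) (max B₃ B₄) := (le_max_left _ _).trans (le_max_left _ _)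
  have e2 : B₂ ≤ max (max B₁ B₂) (max B₃ B₄) := (le_max_right _ _).trans (le_max_left _ _)
  have e3 : B₃ ≤ max (max B₁ B₂) (max B₃ B₄) := (le_max_left _ _).trans (le_max_right _ _)
  have e4 : B₄ ≤ max (max B₁ B₂) (max B₃ B₄) := (le_max_right _ _).trans (le_max_right _ _)
  intro L Ω _ _ _ _ ψ X hX hSch K V _ _ _ _ _ ρ hv hF hLP
  by_cases hS : Scal ρ (ψ.ker ⊓ X)
  · obtain ⟨q, a, -, hqa⟩ := hLP 2 Nat.prime_two
    have hqa' := hqa
    obtain ⟨a1, a2, a3, a4, a5, a6, a7, a8⟩ := hqa'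
    rcases a8 with a8 | ⟨p, h, b1, -, b3⟩
    · have a9 := a6 1 (by rw [pow_one]; exact a5)
      rw [pow_one] at a9
      exact h₂ L Ω ψ X hX K V ρ hv hS q a a1 a2 a3 a4 (e2.trans a9) a7 a8
    · exact h₁ L Ω ψ X hX K V ρ hv hS q p a h (hpair_mono ψ e1 b1) a7 b3
  · exfalso
    have hXn : X.Normal := hX.1
    obtain ⟨M, hM⟩ := (Set.toFinite {M : Subgroup L | M.Normal ∧ M ≤ ψ.ker ⊓ X ∧
      ¬ Scal ρ M}).exists_minimal ⟨ψ.ker ⊓ X, inferInstance, le_refl _, hS⟩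
    obtain ⟨⟨hMn, hMle, hMS⟩, hMmin⟩ := hM
    have hmin : ∀ M' : Subgroup L, M'.Normal → M' < M → Scal ρ M' := by
      intro M' hM'n hM'
      by_contra hcon
      have := hMmin ⟨hM'n, hM'.le.trans hMle, hcon⟩ hM'.le
      exact absurd this (not_le_of_gt hM')
    by_cases hper : ⁅M, M⁆ = M
    · obtain ⟨q, a, -, hqa⟩ := hLP 2 Nat.prime_two
      exact h₄ L Ω ψ X hX hSch K V ρ hv M hMn hMle (hF M hMn (hMle.trans inf_le_right)) hMS
        hmin hper q a (lp_mono ψ ρ e4 hqa)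
    · refine h₃ L Ω ψ X hX K V ρ hv ?_ M hMn hMle hMS hmin hper ?_
      · intro M' hM'n hM'X hc
        exact scal_of_comm ρ hv M' (hF M' hM'n hM'X) hc
      · intro r hr
        obtain ⟨q, a, hqr, hqa⟩ := hLP r hr
        exact ⟨q, a, hqr, lp_mono ψ ρ e3 hqa⟩

end Pool.Agent.H87.NZ.LOC
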